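import Mathlib

/-! Consequences of the exact formula (helper441). -/

set_option autoImplicit false

namespace Pool.Agent.H441.EX.BDC

open Finset

lemma J_abs (a : ℤ) (b : ℕ) : |jacobiSym a b| ≤ 1 := by
  rcases jacobiSym.trichotomy a b with h | h | h <;> rw [h] <;> simp

lemma J_N (κ n : ℕ) (h : Even (κ * n)) : jacobiSym (-(2 : ℤ) ^ κ) (4 * n + 1) = 1 := by
  have hodd : Odd (4 * n + 1) := ⟨2 * n, by ring⟩
  have e1 : (-(2 : ℤ) ^ κ) = (-1) * 2 ^ κ := by ring
  rw [e1, jacobiSym.mul_left, jacobiSym.pow_left, jacobiSym.at_neg_one hodd, jacobiSym.at_two hodd,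
    ZMod.χ₄_nat_one_mod_four (by omega), one_mul, ZMod.χ₈_nat_eq_if_mod_eight]
  rw [if_neg (by omega)]
  rcases Nat.even_or_odd n with hn | hn
  · obtain ⟨m, hm⟩ := hn
    rw [if_pos (by omega), one_pow]
  · have hκ : Even κ := by
      rcases Nat.even_mul.1 h with h | h
      · exact h
      · exact absurd h (Nat.not_even_iff_odd.2 hn)
    obtain ⟨m, hm⟩ := hn
    rw [if_neg (by omega)]
    exact hκ.neg_one_pow

/-- the exponents on the right -/
lemma expR {n d : ℕ} (hd : d ∣ 4 * n + 1) (h1 : d ≠ 1) (h2 : d ≠ 4 * n + 1) :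
    (d + 1) * ((4 * n + 1) / d + 1) / 4 ≤ (4 * n + 4) / 3 := by
  obtain ⟨e, he⟩ := hd
  have hd0 : 0 < d := by
    rcases Nat.eq_zero_or_pos d with h | h
    · rw [h, zero_mul] at he; omega
    · exact h
  have hq : (4 * n + 1) / d = e := by
    rw [he]
    exact Nat.mul_div_cancel_left e hd0
  rw [hq]
  have hd2 : d ≠ 2 := by
    rintro rfl
    omega
  have he0 : e ≠ 0 := by
    rintro rfl
    omega
  have he1 : e ≠ 1 := by
    rintro rfl
    omega
  have he2 : e ≠ 2 := by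
    rintro rfl
    omega
  have hd3 : 3 ≤ d := by omega
  have he3 : 3 ≤ e := by omega
  obtain ⟨x, rfl⟩ := Nat.exists_eq_add_of_le hd3
  obtain ⟨y, rfl⟩ := Nat.exists_eq_add_of_le he3
  have h3 : 3 * ((3 + x + 1) * (3 + y + 1)) ≤ 4 * (4 * n + 4) := by
    have : (3 + x) * (3 + y) = 9 + 3 * x + 3 * y + x * y := by ring
    have h4 : (3 + x + 1) * (3 + y + 1) = 16 + 4 * x + 4 * y + x * y := by ring
    rw [h4]
    rw [this] at he
    omega
  omega

/-- the exponents on the left -/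
lemma expL {n f d : ℕ} (hf : f ∣ 4 * n + 1) (h4 : f % 4 = 1) (h2 : f ≠ 4 * n + 1)
    (hd : d ∣ (4 * n + 1) / f) :
    2 * ((f - 1) / 4) + 1 + f * ((d - 1) * ((4 * n + 1) / f / d - 1) / 4) ≤ (4 * n + 4) / 3 := by
  obtain ⟨M, hM⟩ := hf
  have hf0 : 0 < f := by omega
  have hq : (4 * n + 1) / f = M := by
    rw [hM]
    exact Nat.mul_div_cancel_left M hf0
  rw [hq] at hd ⊢
  have hM0 : M ≠ 0 := by
    rintro rfl
    omega
  obtain ⟨e, he⟩ := hd
  have hd0 : 0 < d := by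
    rcases Nat.eq_zero_or_pos d with h | h
    · rw [h, zero_mul] at he; omega
    · exact h
  have he0 : 0 < e := by
    rcases Nat.eq_zero_or_pos e with h | h
    · rw [h, mul_zero] at he; omega
    · exact h
  have hq2 : M / d = e := by
    rw [he]
    exact Nat.mul_div_cancel_left e hd0
  rw [hq2]
  obtain ⟨g, hg⟩ : ∃ g, f = 4 * g + 1 := ⟨f / 4, by omega⟩
  subst hg
  have hg1 : (4 * g + 1 - 1) / 4 = g := by omega
  rw [hg1]
  -- `M ≥ 5`
  have hM4 : M % 4 = 1 := by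
    have : (4 * g + 1) * M = 4 * (g * M) + M := by ring
    omega
  have hM1 : M ≠ 1 := by
    rintro rfl
    omega
  have hM5 : 5 ≤ M := by omega
  obtain ⟨x, rfl⟩ : ∃ x, d = x + 1 := ⟨d - 1, by omega⟩
  obtain ⟨y, rfl⟩ : ∃ y, e = y + 1 := ⟨e - 1, by omega⟩
  rw [Nat.add_sub_cancel, Nat.add_sub_cancel]
  have h5 : 4 * ((4 * g + 1) * (x * y / 4)) ≤ (4 * g + 1) * (x * y) := by
    have : 4 * (x * y / 4) ≤ x * y := Nat.mul_div_le _ _
    calc 4 * ((4 * g + 1) * (x * y / 4)) = (4 * g + 1) * (4 * (x * y / 4)) := by ring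
      _ ≤ _ := Nat.mul_le_mul_left _ this
  have h6 : (4 * g + 1) * (x * y) + (4 * g + 1) ≤ 4 * n + 1 := by
    rw [hM, he]
    calc (4 * g + 1) * (x * y) + (4 * g + 1) = (4 * g + 1) * (x * y + 1) := by ring
      _ ≤ (4 * g + 1) * ((x + 1) * (y + 1)) := Nat.mul_le_mul_left _ (by
          have : (x + 1) * (y + 1) = x * y + 1 + (x + y) := by ring
          omega)
  have h7 : 5 * (4 * g + 1) ≤ 4 * n + 1 := by
    rw [hM, mul_comm]
    exact Nat.mul_le_mul_left _ hM5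
  omega

/-- the first part, the product is a prime -/
lemma primeCase (κ : ℕ) (p : ℕ → ℕ) (hp0 : p 0 = 2 ^ κ) (n : ℕ) (hn : Even (κ * n))
    (hP : (4 * n + 1).Prime)
    (hI : ∑ f ∈ (4 * n + 1).divisors with f % 4 = 1, (f : ℤ) * (p ((f - 1) / 4) : ℤ) *
      ∑ d ∈ ((4 * n + 1) / f).divisors, jacobiSym (-(2 : ℤ) ^ κ) d *
        ((2 : ℤ) ^ κ) ^ (f * ((d - 1) * ((4 * n + 1) / f / d - 1) / 4)) =
      ∑ d ∈ (4 * n + 1).divisors, jacobiSym (-(2 : ℤ) ^ κ) d *
        ((2 : ℤ) ^ κ) ^ ((d + 1) * ((4 * n + 1) / d + 1) / 4)) :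
    (4 * n + 1) * p n + 2 * 2 ^ κ = 2 * (2 ^ κ) ^ (2 * n + 1) := by
  have hne : (1 : ℕ) ≠ 4 * n + 1 := fun h => hP.ne_one h.symm
  have hdiv : (4 * n + 1).divisors = {1, 4 * n + 1} := hP.divisors
  have hfil : ({1, 4 * n + 1} : Finset ℕ).filter (fun f => f % 4 = 1) = {1, 4 * n + 1} := by
    apply Finset.filter_true_of_mem
    intro f hf
    rw [Finset.mem_insert, Finset.mem_singleton] at hf
    rcases hf with rfl | rfl <;> omega
  have hJ := J_N κ n hn
  have e1 : (1 + 1) * (4 * n + 1 + 1) / 4 = 2 * n + 1 := by omega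
  have e2 : (4 * n + 1 + 1) * (1 + 1) / 4 = 2 * n + 1 := by omega
  have e3 : (4 * n + 1) / (4 * n + 1) = 1 := Nat.div_self (by omega)
  have e4 : (4 * n + 1 - 1) / 4 = n := by omega
  rw [hdiv, hfil, Finset.sum_pair hne, Finset.sum_pair hne] at hI
  simp only [Nat.div_one] at hI
  rw [hdiv, e3, Finset.sum_pair hne, Nat.divisors_one, Finset.sum_singleton] at hI
  simp only [Nat.div_one] at hI
  rw [e3, e1, e2, e4, hJ, jacobiSym.one_right] at hI
  simp only [Nat.sub_self, zero_mul, Nat.zero_div, mul_zero, pow_zero, hp0, one_mul, mul_one] at hI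
  zify
  push_cast at hI
  linear_combination hI

lemma abs_J_mul (a : ℤ) (b : ℕ) {x : ℤ} (hx : 0 ≤ x) : |jacobiSym a b * x| ≤ x := by
  rw [abs_mul, abs_of_nonneg hx]
  exact mul_le_of_le_one_left hx (J_abs a b)

/-- the general bound, in integers -/
lemma bound (κ : ℕ) (p : ℕ → ℕ) (hp : ∀ m, p m ≤ (2 ^ κ) ^ (2 * m + 1)) (hp0 : p 0 = 2 ^ κ)
    (n : ℕ) (hn : Even (κ * n))
    (hI : ∑ f ∈ (4 * n + 1).divisors with f % 4 = 1, (f : ℤ) * (p ((f - 1) / 4) : ℤ) *
      ∑ d ∈ ((4 * n + 1) / f).divisors, jacobiSym (-(2 : ℤ) ^ κ) d *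
        ((2 : ℤ) ^ κ) ^ (f * ((d - 1) * ((4 * n + 1) / f / d - 1) / 4)) =
      ∑ d ∈ (4 * n + 1).divisors, jacobiSym (-(2 : ℤ) ^ κ) d *
        ((2 : ℤ) ^ κ) ^ ((d + 1) * ((4 * n + 1) / d + 1) / 4)) :
    |((4 * n + 1) * p n : ℤ) - 2 * (2 ^ κ) ^ (2 * n + 1)| ≤
      2 * (4 * n + 1) ^ 3 * (2 ^ κ) ^ ((4 * n + 4) / 3) := by
  obtain ⟨Q, hQ⟩ : ∃ Q : ℤ, Q = 2 ^ κ := ⟨_, rfl⟩
  have hQ1 : 1 ≤ Q := by
    rw [hQ]
    exact one_le_pow₀ (by norm_num)
  have hQ0 : 0 < Q := by linarith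
  rcases Nat.eq_zero_or_pos n with h0 | h0
  · subst h0
    simp only [Nat.cast_zero, mul_zero, zero_add, hp0]
    push_cast
    rw [← hQ]
    norm_num
    rw [abs_le]
    constructor <;> linarith
  have hne : (1 : ℕ) ≠ 4 * n + 1 := by omega
  have hN0 : (4 * n + 1) ≠ 0 := by omega
  obtain ⟨B, hB⟩ : ∃ B : ℤ, B = Q ^ ((4 * n + 4) / 3) := ⟨_, rfl⟩
  have hB0 : 0 < B := by
    rw [hB]
    positivity
  have hNc : (1 : ℤ) ≤ 4 * n + 1 := by
    have : (0 : ℤ) ≤ n := Int.natCast_nonneg n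
    linarith
  rw [← hQ] at hI ⊢
  rw [← hB]
  -- the right side
  have hJ := J_N κ n hn
  rw [← hQ] at hJ
  have e1 : (1 + 1) * ((4 * n + 1) / 1 + 1) / 4 = 2 * n + 1 := by
    rw [Nat.div_one]
    omega
  have e3 : (4 * n + 1) / (4 * n + 1) = 1 := Nat.div_self (by omega)
  have e2 : (4 * n + 1 + 1) * ((4 * n + 1) / (4 * n + 1) + 1) / 4 = 2 * n + 1 := by
    rw [e3]
    omega
  have e4 : (4 * n + 1 - 1) / 4 = n := by omega
  have hm1 : 1 ∈ (4 * n + 1).divisors := Nat.one_mem_divisors.2 hN0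
  have hmN : 4 * n + 1 ∈ (4 * n + 1).divisors.erase 1 :=
    Finset.mem_erase.2 ⟨hne.symm, Nat.mem_divisors_self _ hN0⟩
  have hR : |∑ d ∈ (4 * n + 1).divisors, jacobiSym (-Q) d *
        Q ^ ((d + 1) * ((4 * n + 1) / d + 1) / 4) - 2 * Q ^ (2 * n + 1)| ≤ (4 * n + 1) * B := by
    rw [← Finset.add_sum_erase _ _ hm1, ← Finset.add_sum_erase _ _ hmN, e1, e2]
    rw [hJ, jacobiSym.one_right]
    have e5 : 1 * Q ^ (2 * n + 1) + (1 * Q ^ (2 * n + 1) +
        ∑ x ∈ ((4 * n + 1).divisors.erase 1).erase (4 * n + 1), jacobiSym (-Q) x *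
          Q ^ ((x + 1) * ((4 * n + 1) / x + 1) / 4)) - 2 * Q ^ (2 * n + 1) =
        ∑ x ∈ ((4 * n + 1).divisors.erase 1).erase (4 * n + 1), jacobiSym (-Q) x *
          Q ^ ((x + 1) * ((4 * n + 1) / x + 1) / 4) := by ring
    rw [e5]
    refine (Finset.abs_sum_le_sum_abs _ _).trans ?_
    have h1 : ∀ x ∈ ((4 * n + 1).divisors.erase 1).erase (4 * n + 1),
        |jacobiSym (-Q) x * Q ^ ((x + 1) * ((4 * n + 1) / x + 1) / 4)| ≤ B := by
      intro x hx
      rw [Finset.mem_erase, Finset.mem_erase, Nat.mem_divisors] at hx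
      refine (abs_J_mul _ _ (by positivity)).trans ?_
      rw [hB]
      exact pow_le_pow_right₀ hQ1 (expR hx.2.2.1 hx.2.1 hx.1)
    refine (Finset.sum_le_card_nsmul _ _ _ h1).trans ?_
    rw [nsmul_eq_mul]
    refine mul_le_mul_of_nonneg_right ?_ hB0.le
    have h2 : (((4 * n + 1).divisors.erase 1).erase (4 * n + 1)).card ≤ 4 * n + 1 :=
      (Finset.card_le_card ((Finset.erase_subset _ _).trans (Finset.erase_subset _ _))).trans
        (Nat.card_divisors_le_self _)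
    exact_mod_cast h2
  -- the left side
  have hmN' : 4 * n + 1 ∈ (4 * n + 1).divisors.filter (fun f => f % 4 = 1) :=
    Finset.mem_filter.2 ⟨Nat.mem_divisors_self _ hN0, by omega⟩
  have hL : |∑ f ∈ (4 * n + 1).divisors with f % 4 = 1, (f : ℤ) * (p ((f - 1) / 4) : ℤ) *
      ∑ d ∈ ((4 * n + 1) / f).divisors, jacobiSym (-Q) d *
        Q ^ (f * ((d - 1) * ((4 * n + 1) / f / d - 1) / 4)) - (4 * n + 1) * p n| ≤
        (4 * n + 1) ^ 3 * B := by
    rw [← Finset.add_sum_erase _ _ hmN', e3, e4, Nat.divisors_one, Finset.sum_singleton,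
      jacobiSym.one_right]
    have e5 : ∀ S : ℤ, ((4 * n + 1 : ℕ) : ℤ) * (p n : ℤ) *
        (1 * Q ^ ((4 * n + 1) * ((1 - 1) * (1 / 1 - 1) / 4))) + S - (4 * n + 1) * p n = S := by
      intro S
      push_cast
      simp
    rw [e5]
    refine (Finset.abs_sum_le_sum_abs _ _).trans ?_
    have h1 : ∀ f ∈ ((4 * n + 1).divisors.filter (fun f => f % 4 = 1)).erase (4 * n + 1),
        |(f : ℤ) * (p ((f - 1) / 4) : ℤ) * ∑ d ∈ ((4 * n + 1) / f).divisors, jacobiSym (-Q) d *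
          Q ^ (f * ((d - 1) * ((4 * n + 1) / f / d - 1) / 4))| ≤ (4 * n + 1) ^ 2 * B := by
      intro f hf
      rw [Finset.mem_erase, Finset.mem_filter, Nat.mem_divisors] at hf
      obtain ⟨hf1, ⟨hf2, -⟩, hf3⟩ := hf
      have hfN : f ≤ 4 * n + 1 := Nat.le_of_dvd (by omega) hf2
      have hpf : (p ((f - 1) / 4) : ℤ) ≤ Q ^ (2 * ((f - 1) / 4) + 1) := by
        rw [hQ]
        exact_mod_cast hp ((f - 1) / 4)
      rw [abs_mul, abs_of_nonneg (by positivity)]
      have h2 : |∑ d ∈ ((4 * n + 1) / f).divisors, jacobiSym (-Q) d *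
          Q ^ (f * ((d - 1) * ((4 * n + 1) / f / d - 1) / 4))| ≤
          ∑ d ∈ ((4 * n + 1) / f).divisors,
            Q ^ (f * ((d - 1) * ((4 * n + 1) / f / d - 1) / 4)) :=
        (Finset.abs_sum_le_sum_abs _ _).trans
          (Finset.sum_le_sum fun d _ => abs_J_mul _ _ (by positivity))
      have h3 : (p ((f - 1) / 4) : ℤ) * ∑ d ∈ ((4 * n + 1) / f).divisors,
            Q ^ (f * ((d - 1) * ((4 * n + 1) / f / d - 1) / 4)) ≤ (4 * n + 1) * B := by
        calc (p ((f - 1) / 4) : ℤ) * ∑ d ∈ ((4 * n + 1) / f).divisors,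
              Q ^ (f * ((d - 1) * ((4 * n + 1) / f / d - 1) / 4))
            ≤ Q ^ (2 * ((f - 1) / 4) + 1) * ∑ d ∈ ((4 * n + 1) / f).divisors,
              Q ^ (f * ((d - 1) * ((4 * n + 1) / f / d - 1) / 4)) := by
              refine mul_le_mul_of_nonneg_right hpf (Finset.sum_nonneg fun d _ => ?_)
              positivity
          _ = ∑ d ∈ ((4 * n + 1) / f).divisors, Q ^ (2 * ((f - 1) / 4) + 1 +
              f * ((d - 1) * ((4 * n + 1) / f / d - 1) / 4)) := by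
              rw [Finset.mul_sum]
              exact Finset.sum_congr rfl fun d _ => (pow_add _ _ _).symm
          _ ≤ ∑ d ∈ ((4 * n + 1) / f).divisors, B := by
              refine Finset.sum_le_sum fun d hd => ?_
              rw [hB]
              exact pow_le_pow_right₀ hQ1 (expL hf2 hf3 hf1 (Nat.dvd_of_mem_divisors hd))
          _ = (((4 * n + 1) / f).divisors.card : ℤ) * B := by
              rw [Finset.sum_const, nsmul_eq_mul]
          _ ≤ (4 * n + 1) * B := by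
              refine mul_le_mul_of_nonneg_right ?_ hB0.le
              have h2 : ((4 * n + 1) / f).divisors.card ≤ 4 * n + 1 :=
                (Nat.card_divisors_le_self _).trans (Nat.div_le_self _ _)
              exact_mod_cast h2
      have hfc : (f : ℤ) ≤ 4 * n + 1 := by exact_mod_cast hfN
      calc (f : ℤ) * (p ((f - 1) / 4) : ℤ) * |∑ d ∈ ((4 * n + 1) / f).divisors, jacobiSym (-Q) d *
          Q ^ (f * ((d - 1) * ((4 * n + 1) / f / d - 1) / 4))|
          ≤ (f : ℤ) * (p ((f - 1) / 4) : ℤ) * ∑ d ∈ ((4 * n + 1) / f).divisors,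
            Q ^ (f * ((d - 1) * ((4 * n + 1) / f / d - 1) / 4)) :=
            mul_le_mul_of_nonneg_left h2 (by positivity)
        _ = (f : ℤ) * ((p ((f - 1) / 4) : ℤ) * ∑ d ∈ ((4 * n + 1) / f).divisors,
            Q ^ (f * ((d - 1) * ((4 * n + 1) / f / d - 1) / 4))) := by ring
        _ ≤ (f : ℤ) * ((4 * n + 1) * B) := mul_le_mul_of_nonneg_left h3 (by positivity)
        _ ≤ (4 * n + 1) * ((4 * n + 1) * B) := mul_le_mul_of_nonneg_right hfc (by positivity)
        _ = (4 * n + 1) ^ 2 * B := by ring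
    refine (Finset.sum_le_card_nsmul _ _ _ h1).trans ?_
    rw [nsmul_eq_mul]
    have h2 : (((4 * n + 1).divisors.filter (fun f => f % 4 = 1)).erase (4 * n + 1)).card ≤
        4 * n + 1 :=
      (Finset.card_le_card ((Finset.erase_subset _ _).trans (Finset.filter_subset _ _))).trans
        (Nat.card_divisors_le_self _)
    have h3 : ((((4 * n + 1).divisors.filter (fun f => f % 4 = 1)).erase (4 * n + 1)).card : ℤ) ≤
        4 * n + 1 := by exact_mod_cast h2
    calc _ ≤ (4 * n + 1 : ℤ) * ((4 * n + 1) ^ 2 * B) :=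
          mul_le_mul_of_nonneg_right h3 (by positivity)
      _ = _ := by ring
  rw [hI] at hL
  have h5 : (4 * n + 1 : ℤ) * B ≤ (4 * n + 1) ^ 3 * B := by
    refine mul_le_mul_of_nonneg_right ?_ hB0.le
    exact le_self_pow₀ hNc (by norm_num)
  have h6 := abs_le.1 hL
  have h7 := abs_le.1 hR
  rw [abs_le]
  constructor
  · linarith [h6.1, h6.2, h7.1, h7.2]
  · linarith [h6.1, h6.2, h7.1, h7.2]

end Pool.Agent.H441.EX.BDC
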