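import Pool.Agent.H525.EX.Stm3
import Pool.Agent.H441.EX.BDC

/-! EX BD (helper441): consequences of the exact formula. -/

set_option autoImplicit false

namespace Pool.Agent.H441.EX

theorem t_bd : Pool.Agent.H525.EX.S_bd := by
  intro κ p hκ hp hp0 hI n hn
  refine ⟨fun hP => BDC.primeCase κ p hp0 n hn hP (hI n), ?_⟩
  have h := BDC.bound κ p hp hp0 n hn (hI n)
  exact_mod_cast h

end Pool.Agent.H441.EX
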